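import Pool.Agent.N115.JT.Stm

/-!
JT/1: the values are algebraic over the field generated by the roots.
-/

set_option autoImplicit false

namespace Pool.Agent.N603.JT.RootsAlg

open Polynomial
open Pool.Agent.N115.AN (Fac)

section

variable {k K M Ω : Type} [Field k] [Field K] [Field M] [Field Ω] [Algebra k K] [Algebra k M]
    [Algebra K M] [IsScalarTower k K M] [Algebra k Ω] [Algebra K Ω] [IsScalarTower k K Ω]

theorem tau_base (τ : M →ₐ[K] Ω) (c : k) : τ (algebraMap k M c) = algebraMap k Ω c := by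
  rw [IsScalarTower.algebraMap_apply k K M, AlgHom.commutes,
    ← IsScalarTower.algebraMap_apply k K Ω]

/-- The values of the divisors of `F` are in the field generated by the roots. -/
theorem value_mem [IsAlgClosed Ω] (τ : M →ₐ[K] Ω) {F : K[X]} (hF : F ≠ 0) {p : M[X]}
    (hp : p.Monic) (hd : p ∣ F.map (algebraMap K M)) (c : k) :
    τ (p.eval (algebraMap k M c)) ∈ IntermediateField.adjoin k (F.rootSet Ω) := by
  set q : Polynomial Ω := p.map (τ : M →+* Ω) with hq
  have hqm : q.Monic := hp.map _
  have hmap : (F.map (algebraMap K M)).map (τ : M →+* Ω) = F.map (algebraMap K Ω) := by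
    rw [Polynomial.map_map]
    congr 1
    exact τ.comp_algebraMap
  have hqd : q ∣ F.map (algebraMap K Ω) := by
    rw [← hmap]
    exact Polynomial.map_dvd _ hd
  have hsp : q = (q.roots.map fun x => X - C x).prod := by
    have h1 := (IsAlgClosed.splits q).eq_prod_roots
    rw [hqm.leadingCoeff, C_1, one_mul] at h1
    exact h1
  have hval : τ (p.eval (algebraMap k M c)) =
      (q.roots.map fun x => algebraMap k Ω c - x).prod := by
    have h1 : τ (p.eval (algebraMap k M c)) = q.eval (algebraMap k Ω c) := by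
      rw [hq, ← tau_base τ c]
      exact (Polynomial.eval_map_apply (τ : M →+* Ω) (algebraMap k M c)).symm
    rw [h1]
    conv_lhs => rw [hsp]
    rw [Polynomial.eval_multiset_prod, Multiset.map_map]
    congr 1
    refine Multiset.map_congr rfl fun x _ => ?_
    simp
  rw [hval]
  refine (IntermediateField.adjoin k (F.rootSet Ω)).multiset_prod_mem _ ?_
  intro z hz
  obtain ⟨x, hx, rfl⟩ := Multiset.mem_map.1 hz
  refine sub_mem (IntermediateField.algebraMap_mem _ c) ?_
  refine IntermediateField.subset_adjoin k _ ?_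
  rw [Polynomial.mem_rootSet]
  refine ⟨hF, ?_⟩
  obtain ⟨r, hr⟩ := hqd
  have hx0 : q.eval x = 0 := (Polynomial.mem_roots'.1 hx).2
  rw [aeval_def, eval₂_eq_eval_map, hr, eval_mul, hx0, zero_mul]

end

theorem main : Pool.Agent.N115.JT.RootsAlg := by
  intro k K M Ω _ _ _ _ _ _ _ _ _ _ _ _ m N hm a F hF H u T T' e hfac y hy i0 hi0 τ i
  set E := IntermediateField.adjoin k (F.rootSet Ω) with hE
  let A : Fin (N + 1) → M := fun i => ((∏ p ∈ T, (p.eval (algebraMap k M (a i))) ^ e p) *
    ∏ p ∈ T', (p.eval (algebraMap k M (a i))) ^ e p)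
  have hA : ∀ i, y i ^ m = u * A i := by
    intro i
    rw [hy i, hfac.eq, eval_mul, eval_C, eval_mul, eval_prod, eval_prod]
    simp only [eval_pow]
    rfl
  have hmem : ∀ i, τ (A i) ∈ E := by
    intro i
    change τ ((∏ p ∈ T, (p.eval (algebraMap k M (a i))) ^ e p) *
      ∏ p ∈ T', (p.eval (algebraMap k M (a i))) ^ e p) ∈ E
    rw [map_mul, map_prod, map_prod]
    refine mul_mem (prod_mem fun p hp => ?_) (prod_mem fun p hp => ?_)
    · rw [map_pow]
      refine pow_mem (value_mem τ hF (hfac.irr p hp).2.1 ?_ (a i)) _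
      exact (Finset.dvd_prod_of_mem (fun p => p) hp).trans hfac.dvd
    · rw [map_pow]
      refine pow_mem ?_ _
      obtain ⟨c, rfl⟩ := hfac.cst p hp
      rw [eval_sub, eval_X, eval_C, map_sub, tau_base, tau_base]
      exact sub_mem (IntermediateField.algebraMap_mem _ _) (IntermediateField.algebraMap_mem _ _)
  have h1 : τ u * τ (A i0) = 1 := by
    rw [← map_mul, ← hA i0, hi0, one_pow, map_one]
  have hu : τ u ∈ E := by
    have h2 : τ u = (τ (A i0))⁻¹ := eq_inv_of_mul_eq_one_left h1
    rw [h2]
    exact inv_mem (hmem i0)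
  have h3 : τ (y i) ^ m ∈ E := by
    rw [← map_pow, hA i, map_mul]
    exact mul_mem hu (hmem i)
  refine IsAlgebraic.of_pow (n := m) (by omega) ?_
  exact isAlgebraic_algebraMap (⟨τ (y i) ^ m, h3⟩ : E)

end Pool.Agent.N603.JT.RootsAlg
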